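import Pool.Agent.helper82.LB.Spec1

/-!
# Project LB (MP_2e0e07_nt), row DIR: the reducible case
-/

set_option autoImplicit false

open Matrix Polynomial NumberField Pool.Agent.GO Pool.Agent.RG Pool.Agent.CH

namespace Pool.Agent.LB

/-- a root of `X^p - X` is in the prime field -/
theorem DIR_prime (p : ℕ) [Fact p.Prime] (κ : Type) [Field κ] [CharP κ p] (y : κ) (hy : y ^ p = y) :
    ∃ c : ZMod p, y = ZMod.castHom (dvd_refl p) κ c := by
  classical
  have hp : p.Prime := Fact.out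
  by_contra hne
  push Not at hne
  let S : Finset κ := (Finset.univ : Finset (ZMod p)).image (ZMod.castHom (dvd_refl p) κ)
  have hS : S.card = p := by
    rw [Finset.card_image_of_injective _ (ZMod.castHom (dvd_refl p) κ).injective, Finset.card_univ, ZMod.card]
  have hyS : y ∉ S := by
    intro h
    obtain ⟨c, _, hc⟩ := Finset.mem_image.1 h
    exact hne c hc.symm
  have h0 : (X ^ p - X : κ[X]) ≠ 0 := by
    intro h
    have h1 : (X ^ p - X : κ[X]).coeff p = 1 := by
      rw [coeff_sub, coeff_X_pow, if_pos rfl, coeff_X, if_neg hp.one_lt.ne, sub_zero]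
    rw [h, coeff_zero] at h1
    exact zero_ne_one h1
  have hdeg : (X ^ p - X : κ[X]).natDegree ≤ p := by
    refine (natDegree_sub_le _ _).trans ?_
    rw [natDegree_X_pow]
    exact max_le le_rfl (natDegree_X_le.trans hp.one_lt.le)
  have hsub : insert y S ⊆ (X ^ p - X : κ[X]).roots.toFinset := by
    intro z hz
    rw [Multiset.mem_toFinset, mem_roots h0, IsRoot.def, eval_sub, eval_pow, eval_X]
    rcases Finset.mem_insert.1 hz with rfl | hz
    · rw [hy, sub_self]
    · obtain ⟨c, _, rfl⟩ := Finset.mem_image.1 hz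
      rw [← map_pow, ZMod.pow_card, sub_self]
  have hc := Finset.card_le_card hsub
  rw [Finset.card_insert_of_notMem hyS, hS] at hc
  have h2 : (X ^ p - X : κ[X]).roots.toFinset.card ≤ p :=
    (Multiset.toFinset_card_le _).trans ((card_roots' _).trans hdeg)
  omega

theorem DIR_alt (p : ℕ) [Fact p.Prime] (κ : Type) [Field κ] [CharP κ p] (u w : κ) (a b : ZMod p)
    (ha : ZMod.castHom (dvd_refl p) κ a = u + w) (hb : ZMod.castHom (dvd_refl p) κ b = u * w) :
    (u ^ p = u ∧ w ^ p = w) ∨ (u ^ p = w ∧ w ^ p = u) := by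
  have hA : (u + w) ^ p = u + w := by rw [← ha, ← map_pow, ZMod.pow_card]
  have hB : (u * w) ^ p = u * w := by rw [← hb, ← map_pow, ZMod.pow_card]
  rw [add_pow_char] at hA
  rw [mul_pow] at hB
  have h : (u ^ p - u) * (u ^ p - w) = 0 := by
    have e : w ^ p = u + w - u ^ p := by linear_combination hA
    rw [e] at hB
    linear_combination -hB
  rcases mul_eq_zero.1 h with h | h
  · left
    have h1 : u ^ p = u := sub_eq_zero.1 h
    refine ⟨h1, ?_⟩
    rw [h1] at hA
    exact add_left_cancel hA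
  · right
    have h1 : u ^ p = w := sub_eq_zero.1 h
    refine ⟨h1, ?_⟩
    rw [h1] at hA
    linear_combination hA

/-- **DIR** -/
theorem DIR : DIR_stmt := by
  intro p _ κ G _ _ _ ψ₁ ψ₂ hp2 hg
  have halt : ∀ g, ((ψ₁ g : κ) ^ p = ψ₁ g ∧ (ψ₂ g : κ) ^ p = ψ₂ g) ∨ ((ψ₁ g : κ) ^ p = ψ₂ g ∧ (ψ₂ g : κ) ^ p = ψ₁ g) := by
    intro g
    obtain ⟨a, b, ha, hb⟩ := hg g
    exact DIR_alt p κ _ _ a b ha hb
  have hun : (∀ g, (ψ₁ g : κ) ^ p = ψ₁ g) ∨ (∀ g, (ψ₁ g : κ) ^ p = ψ₂ g) := by
    by_contra hne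
    rw [not_or] at hne
    obtain ⟨h1, h2⟩ := hne
    push Not at h1 h2
    obtain ⟨g, hg1⟩ := h1
    obtain ⟨g', hg2⟩ := h2
    have k1 : (ψ₁ g : κ) ^ p = ψ₂ g := by
      rcases halt g with h | h
      · exact absurd h.1 hg1
      · exact h.1
    have k2 : (ψ₁ g' : κ) ^ p = ψ₁ g' := by
      rcases halt g' with h | h
      · exact h.1
      · exact absurd h.1 hg2
    have n1 : (ψ₁ g' : κ) ≠ 0 := (ψ₁ g').ne_zero
    have n2 : (ψ₂ g : κ) ≠ 0 := (ψ₂ g).ne_zero
    rcases halt (g * g') with h | h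
    · have h3 := h.1
      rw [map_mul, Units.val_mul, mul_pow, k2] at h3
      exact hg1 (mul_right_cancel₀ n1 h3)
    · have h3 := h.1
      rw [map_mul, map_mul, Units.val_mul, Units.val_mul, mul_pow, k1] at h3
      exact hg2 (mul_left_cancel₀ n2 h3)
  intro g g'
  have hx : (((ψ₁ g : κ) - ψ₂ g) * ((ψ₁ g' : κ) - ψ₂ g')) ^ p = ((ψ₁ g : κ) - ψ₂ g) * ((ψ₁ g' : κ) - ψ₂ g') := by
    rw [mul_pow, sub_pow_char, sub_pow_char]
    rcases hun with h | h
    · have key : ∀ g, (ψ₂ g : κ) ^ p = ψ₂ g := by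
        intro g
        rcases halt g with h' | h'
        · exact h'.2
        · rw [h'.2, ← h g, h'.1]
      rw [h g, h g', key g, key g']
    · have key : ∀ g, (ψ₂ g : κ) ^ p = ψ₁ g := by
        intro g
        rcases halt g with h' | h'
        · rw [h'.2, ← h g, h'.1]
        · exact h'.2
      rw [h g, h g', key g, key g']
      ring
  exact DIR_prime p κ _ hx

end Pool.Agent.LB
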